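import Pool.Agent.Run7.h383.Final

/-!
# Noetherianity of multigraded twisted products of algebras of dimension at most two

Let `K` be any field and `B` a `K`-algebra graded by `ℕ^ι` (`ι` finite).  Write `V i` for the
component of degree `e i`.  Assume that `B` is generated by the spaces `V i`, that
`V i * V j = V j * V i` for all `i, j`, that the multigraded Hilbert series is the product of
`(1 - s_i)^{-2}` over `i ∈ D` and `(1 - s_i)^{-1}` over `i ∉ D`, and that for `i ∈ D` the product
of two nonzero elements of `V i` is nonzero (equivalently, the quadratic relation of the `i`-th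
axis algebra has rank two, so the axis algebras are the Artin-Schelter regular algebras of
dimension one or two which are generated in degree one).  Then `B` is left and right noetherian.
-/

theorem Pool.Agent.Results.MP_b4d666_al.TwistedProductsDimTwo.result
    {K : Type*} [Field K] {B : Type*} [Ring B] [Algebra K B]
    {ι : Type*} [Fintype ι] [DecidableEq ι] (D : Finset ι)
    (ℬ : (ι → ℕ) → Submodule K B) [GradedAlgebra ℬ]
    (hilbert : ∀ α : ι → ℕ, Module.finrank K (ℬ α) = ∏ i ∈ D, (α i + 1))
    (generated : Algebra.adjoin K (⋃ i, (ℬ (Pi.single i 1) : Set B)) = ⊤)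
    (commute : ∀ i j : ι, ℬ (Pi.single i 1) * ℬ (Pi.single j 1) =
      ℬ (Pi.single j 1) * ℬ (Pi.single i 1))
    (regular : ∀ i ∈ D, ∀ v ∈ ℬ (Pi.single i 1), ∀ w ∈ ℬ (Pi.single i 1),
      v * w = 0 → v = 0 ∨ w = 0) :
    IsNoetherianRing B ∧ IsNoetherianRing Bᵐᵒᵖ :=
  (Run7.h383.main (D := D) ℬ hilbert generated commute regular).2
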